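import Mathlib
import Pool.Agent.H418.FP.Fld

/-!
# Free absolute Galois groups over perfect extensions of `F_p(X)`, `p` odd

Let `p` be an odd prime and `K = k(X)` a rational function field over any field `k` of
characteristic `p`, for example `K = F_p(X)`, or any Hilbertian field of characteristic `p`.

Let `S` be a set of finite Galois extensions of `K` (in a separable closure) such that

* every `M` in `S` has two semisimple layers: there is a field `E` between `K` and `M`, Galois over
  `K`, such that the groups of `E / K` and of `M / E` are direct products of nonabelian simple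
  groups;
* `S` contains all extensions whose group is a wreath product `A_m ≀ A_n` of alternating groups, `m`
  in `D`, `n ≥ N`, `m, n ≥ 5`, where `N` is any number and `D` is any set of numbers such that every
  positive integer divides a positive element of `D`.

For example `S` is the set of ALL Galois extensions with a group `A_m ≀ A_n`, `m, n ≥ 5`.

Let `F` be the compositum of the fields in `S`. Then `F / K` is Galois and contains no solvable
extension of `K` (besides `K`), every finite group occurs over `F`, every finite embedding problem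
over `F`, split or not, is solvable, and if `K` is countable then the absolute Galois group of `F`
is the free profinite group of countable rank.
-/

set_option autoImplicit false

open Topology Filter

namespace Pool.Agent.Results.MP_7f581e_nt.FreeOverPerfect

/-- `K` is Hilbertian (in the form used in frozen statement S03429): every monic irreducible
`f ∈ K[T][X]` which is separable over `K(T)` has an irreducible specialization `f(a, X)` with
`g(a) ≠ 0`, for every nonzero polynomial `g`. -/
def IsHilbertian (K : Type) [Field K] : Prop :=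
  ∀ f : Polynomial (Polynomial K), f.Monic → Irreducible f →
    (f.map (algebraMap (Polynomial K) (FractionRing (Polynomial K)))).Separable →
    ∀ g : Polynomial K, g ≠ 0 →
      ∃ a : K, g.eval a ≠ 0 ∧ Irreducible (f.map (Polynomial.evalRingHom a))

/-- `P` is a finite direct product of nonabelian simple groups. -/
def IsSemisimple (P : Type) [Group P] : Prop :=
  ∃ (ι : Type) (_ : Finite ι) (S : ι → Type) (_ : ∀ i, Group (S i)),
    (∀ i, IsSimpleGroup (S i) ∧ ∃ a b : S i, a * b ≠ b * a) ∧ Nonempty (P ≃* ∀ i, S i)

/-- `M / K` is a finite Galois extension and there is a field `E` between `K` and `M`, Galois over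
`K`, such that the groups of `E / K` and of `M / E` are direct products of nonabelian simple
groups. -/
def IsTwoStepExt {K Ω : Type} [Field K] [Field Ω] [Algebra K Ω] (M : IntermediateField K Ω) :
    Prop :=
  FiniteDimensional K M ∧ IsGalois K M ∧
    ∃ E : IntermediateField K M, IsGalois K E ∧ IsSemisimple (E ≃ₐ[K] E) ∧
      IsSemisimple (M ≃ₐ[E] M)

/-- `M / K` is a finite Galois extension whose group is the wreath product `A_m ≀ A_n`. -/
def IsWreathExt {K Ω : Type} [Field K] [Field Ω] [Algebra K Ω] (m n : ℕ)
    (M : IntermediateField K Ω) : Prop :=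
  FiniteDimensional K M ∧ IsGalois K M ∧
    Nonempty ((M ≃ₐ[K] M) ≃*
      (Fin n → alternatingGroup (Fin m)) ⋊[mulAutArrow] alternatingGroup (Fin n))

/-- The finite group `G` occurs over `F`. -/
def Occurs (F G : Type) [Field F] [Group G] : Prop :=
  ∃ (L : Type) (_ : Field L) (_ : Algebra F L), FiniteDimensional F L ∧ IsGalois F L ∧
    Nonempty ((L ≃ₐ[F] L) ≃* G)

/-- Every finite embedding problem over `F` has a proper solution: if `L / F` is a finite Galois
extension and `α : B → Gal(L / F)` is a surjective homomorphism of finite groups then there are a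
finite Galois extension `M` of `F` which contains `L` and an isomorphism `γ : Gal(M / F) → B` such
that `α ∘ γ` is the restriction to `L`. -/
def SolvesAllEP (F : Type) [Field F] : Prop :=
  ∀ (L : Type) [Field L] [Algebra F L] [FiniteDimensional F L] [IsGalois F L]
    (B : Type) [Group B] [Finite B] (α : B →* (L ≃ₐ[F] L)), Function.Surjective α →
    ∃ (M : Type) (_ : Field M) (_ : Algebra F M) (_ : Algebra L M) (_ : IsScalarTower F L M)
      (_ : FiniteDimensional F M) (_ : IsGalois F M) (γ : (M ≃ₐ[F] M) ≃* B),
      ∀ (σ : M ≃ₐ[F] M) (x : L), σ (algebraMap L M x) = algebraMap L M (α (γ σ) x)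

/-- The topological group `G` is the free profinite group of countable rank: it is profinite and
there is a sequence `x i` in `G` which converges to `1` such that for every profinite group `A` and
every sequence `a i` in `A` which converges to `1` there is exactly one continuous homomorphism
`φ : G → A` with `φ (x i) = a i` for all `i`. -/
def IsFreeProfinite (G : Type) [Group G] [TopologicalSpace G] : Prop :=
  (IsTopologicalGroup G ∧ CompactSpace G ∧ T2Space G ∧ TotallyDisconnectedSpace G) ∧
  ∃ x : ℕ → G, Tendsto x cofinite (𝓝 1) ∧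
    ∀ (A : Type) [Group A] [TopologicalSpace A] [IsTopologicalGroup A] [CompactSpace A]
      [T2Space A] [TotallyDisconnectedSpace A] (a : ℕ → A), Tendsto a cofinite (𝓝 1) →
      ∃! φ : G →ₜ* A, ∀ i, φ (x i) = a i

/-- The theorem for the field `K`. -/
def FreeOver (K : Type) [Field K] : Prop :=
  ∀ (D : Set ℕ) (N : ℕ) (S : Set (IntermediateField K (SeparableClosure K))),
    (∀ a : ℕ, 0 < a → ∃ m ∈ D, 0 < m ∧ a ∣ m) →
    (∀ M ∈ S, IsTwoStepExt M) →
    (∀ (m n : ℕ) (M : IntermediateField K (SeparableClosure K)), m ∈ D → 5 ≤ m → 5 ≤ n → N ≤ n →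
      IsWreathExt m n M → M ∈ S) →
    ∀ F : IntermediateField K (SeparableClosure K), F = sSup S →
      IsGalois K F ∧
      (∀ E : IntermediateField K (SeparableClosure K), E ≤ F → FiniteDimensional K E →
        IsGalois K E → Group.IsSolvable (E ≃ₐ[K] E) → E = ⊥) ∧
      (∀ (G : Type) [Group G] [Finite G], Occurs F G) ∧
      SolvesAllEP F ∧
      (Countable K → IsFreeProfinite (SeparableClosure K ≃ₐ[F] SeparableClosure K))

theorem main {K : Type} [Field K] (p : ℕ) [Fact p.Prime] (hp : p ≠ 2) [CharP K p]
    (hK : IsHilbertian K) : FreeOver K := by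
  intro D N S hD hS hA F hF
  subst hF
  have h2 : ∀ M ∈ S, Pool.Agent.H418.FP.TwoStepExt M := fun M hM =>
    ⟨(hS M hM).1, (hS M hM).2.1, (hS M hM).2.2⟩
  have hle : Pool.Agent.H418.FP.TRes2 (SeparableClosure K ≃ₐ[K] SeparableClosure K) ≤
      (sSup S : IntermediateField K (SeparableClosure K)).fixingSubgroup := by
    rw [Pool.Agent.H418.FA.fixing_sSup]
    refine le_sInf ?_
    rintro _ ⟨M, hM, rfl⟩
    exact (h2 M hM).le
  have hgood : Pool.Agent.H418.FP.Good (SeparableClosure K ≃ₐ[K] SeparableClosure K) D N
      (IntermediateField.fixingSubgroup '' S) := by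
    constructor
    · rintro _ ⟨M, hM, rfl⟩
      exact (h2 M hM).le
    · intro m n hm hm5 hn5 hn f hf hfo
      obtain ⟨M, hM, h3, h4, h5⟩ := Pool.Agent.H418.FP.exists_field_of_hom f hf hfo
      exact ⟨M, hA m n M hm hm5 hn5 hn ⟨h3, h4, h5⟩, hM⟩
  have hsolve : Pool.Agent.H418.FA.SolvesAll
      (SeparableClosure K ≃ₐ[(sSup S : IntermediateField K (SeparableClosure K))]
        SeparableClosure K) := by
    obtain ⟨e, he, he'⟩ := Pool.Agent.H418.FA.exists_equiv
      (sSup S : IntermediateField K (SeparableClosure K))
    refine Pool.Agent.H418.FA.SolvesAll.of_equiv e he he' ?_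
    rw [Pool.Agent.H418.FA.fixing_sSup]
    exact Pool.Agent.H418.FP.core3 hD
      (Pool.Agent.H418.FP.perfSolv K (SeparableClosure K) p hp hK) _ hgood
  have hEP : SolvesAllEP (sSup S : IntermediateField K (SeparableClosure K)) :=
    Pool.Agent.H418.FP.solvesAllEP_sep hsolve
  refine ⟨?_, ?_, ?_, hEP, ?_⟩
  · rw [← InfiniteGalois.normal_iff_isGalois, Pool.Agent.H418.FA.fixing_sSup]
    refine ⟨fun x hx g => ?_⟩
    rw [Subgroup.mem_sInf] at hx ⊢
    rintro _ ⟨M, hM, rfl⟩
    have h3 := (h2 M hM).gal
    have h4 : M.fixingSubgroup.Normal := by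
      rw [InfiniteGalois.normal_iff_isGalois]
      exact h3
    exact h4.conj_mem x (hx _ ⟨M, hM, rfl⟩) g
  · intro E hE hfd hg hs
    exact Pool.Agent.H418.FP.eq_bot_of_solvable _ E hle hE hfd hg hs
  · intro G _ _
    have h0 : ∀ a : (sSup S : IntermediateField K (SeparableClosure K)) ≃ₐ[
        (sSup S : IntermediateField K (SeparableClosure K))]
        (sSup S : IntermediateField K (SeparableClosure K)), a = 1 :=
      fun a => AlgEquiv.ext fun x => a.commutes x
    obtain ⟨M, i1, i2, i3, i4, i5, i6, γ, -⟩ := hEP
      (sSup S : IntermediateField K (SeparableClosure K)) G 1 (fun a => ⟨1, by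
        rw [h0 a, map_one]⟩)
    exact ⟨M, i1, i2, i5, i6, ⟨γ⟩⟩
  · intro hc
    have hcΩ : Countable (SeparableClosure K) := by
      have h3 := Algebra.IsAlgebraic.cardinalMk_le_max K (SeparableClosure K)
      rw [← Cardinal.mk_le_aleph0_iff]
      exact h3.trans (max_le (Cardinal.mk_le_aleph0_iff.2 inferInstance) le_rfl)
    obtain ⟨x, hx1, hx2⟩ := Pool.Agent.H418.FA.free_of_solvesAll _ hsolve
    exact ⟨⟨inferInstance, inferInstance, inferInstance, inferInstance⟩, x, hx1, hx2⟩

/-- Let `p` be an odd prime and `K` a field of characteristic `p`. The theorem holds for the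
rational function field `K(X)`, for example for `F_p(X)`, and for `K` itself if `K` is Hilbertian. -/
theorem result (p : ℕ) [Fact p.Prime] (hp : p ≠ 2) (K : Type) [Field K] [CharP K p] :
    FreeOver (RatFunc K) ∧ (IsHilbertian K → FreeOver K) := by
  have : CharP (RatFunc K) p := Pool.Agent.Y60.DC.charP_ratFunc K p
  exact ⟨main p hp (Pool.Agent.Y140.HD.hilb_ratFunc K), main p hp⟩

end Pool.Agent.Results.MP_7f581e_nt.FreeOverPerfect
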