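import Mathlib
import Pool.Agent.H418.FQ.Grp
import Pool.Agent.H418.FQ.Hit
import Pool.Agent.H418.FA.Lat2

/-!
# The absolute Galois group of `F_p(X)`, `p` odd, is a product of two free normal subgroups

Let `p` be an odd prime and let `K` be the rational function field `k(X)` over a countable field `k`
of characteristic `p`, for example `K = F_p(X)`, or any countable Hilbertian field of characteristic
`p`. Then the absolute Galois group `G` of `K` has closed normal subgroups `N 0, N 1, ...` such that
for all `j ≠ k`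

* `N j` is a free profinite group of countable rank,
* `G = N j * N k`, and `N j ∩ N k` is a free profinite group of countable rank.

More precisely: there are pairwise disjoint sets `X 0, X 1, ...` of numbers, which depend only on
`p`, such that the following holds. For a set `J` of natural numbers let `F J` be the compositum of ALL Galois extensions of `K`
whose group is a wreath product `A_m ≀ A_n` of alternating groups with `m, n ≥ 5` in the same set
`X j`, `j ∈ J`. Then `F ∅ = K`, unions correspond to composita, intersections to intersections of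
fields and to products of Galois groups, `F J` contains no solvable extension of `K`, and if
`J ≠ ∅` then the absolute Galois group of `F J` is free profinite of countable rank: every finite
group occurs over `F J`, and every finite embedding problem over `F J` is solvable.
-/

set_option autoImplicit false

open Topology Filter

namespace Pool.Agent.Results.MP_7f581e_nt.ProductOfTwoFree

/-- `K` is Hilbertian (in the form used in frozen statement S03429): every monic irreducible
`f ∈ K[T][X]` which is separable over `K(T)` has an irreducible specialization `f(a, X)` with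
`g(a) ≠ 0`, for every nonzero polynomial `g`. -/
def IsHilbertian (K : Type) [Field K] : Prop :=
  ∀ f : Polynomial (Polynomial K), f.Monic → Irreducible f →
    (f.map (algebraMap (Polynomial K) (FractionRing (Polynomial K)))).Separable →
    ∀ g : Polynomial K, g ≠ 0 →
      ∃ a : K, g.eval a ≠ 0 ∧ Irreducible (f.map (Polynomial.evalRingHom a))

/-- `M / K` is a finite Galois extension whose group is the wreath product `A_m ≀ A_n`. -/
def IsWreathExt {K Ω : Type} [Field K] [Field Ω] [Algebra K Ω] (m n : ℕ)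
    (M : IntermediateField K Ω) : Prop :=
  FiniteDimensional K M ∧ IsGalois K M ∧
    Nonempty ((M ≃ₐ[K] M) ≃*
      (Fin n → alternatingGroup (Fin m)) ⋊[mulAutArrow] alternatingGroup (Fin n))

/-- The finite group `G` occurs over `F`. -/
def Occurs (F G : Type) [Field F] [Group G] : Prop :=
  ∃ (L : Type) (_ : Field L) (_ : Algebra F L), FiniteDimensional F L ∧ IsGalois F L ∧
    Nonempty ((L ≃ₐ[F] L) ≃* G)

/-- Every finite embedding problem over `F` has a proper solution: if `L / F` is a finite Galois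
extension and `α : B → Gal(L / F)` is a surjective homomorphism of finite groups then there are a
finite Galois extension `M` of `F` which contains `L` and an isomorphism `γ : Gal(M / F) → B` such
that `α ∘ γ` is the restriction to `L`. -/
def SolvesAllEP (F : Type) [Field F] : Prop :=
  ∀ (L : Type) [Field L] [Algebra F L] [FiniteDimensional F L] [IsGalois F L]
    (B : Type) [Group B] [Finite B] (α : B →* (L ≃ₐ[F] L)), Function.Surjective α →
    ∃ (M : Type) (_ : Field M) (_ : Algebra F M) (_ : Algebra L M) (_ : IsScalarTower F L M)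
      (_ : FiniteDimensional F M) (_ : IsGalois F M) (γ : (M ≃ₐ[F] M) ≃* B),
      ∀ (σ : M ≃ₐ[F] M) (x : L), σ (algebraMap L M x) = algebraMap L M (α (γ σ) x)

/-- The topological group `G` is the free profinite group of countable rank: it is profinite and
there is a sequence `x i` in `G` which converges to `1` such that for every profinite group `A` and
every sequence `a i` in `A` which converges to `1` there is exactly one continuous homomorphism
`φ : G → A` with `φ (x i) = a i` for all `i`. -/
def IsFreeProfinite (G : Type) [Group G] [TopologicalSpace G] : Prop :=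
  (IsTopologicalGroup G ∧ CompactSpace G ∧ T2Space G ∧ TotallyDisconnectedSpace G) ∧
  ∃ x : ℕ → G, Tendsto x cofinite (𝓝 1) ∧
    ∀ (A : Type) [Group A] [TopologicalSpace A] [IsTopologicalGroup A] [CompactSpace A]
      [T2Space A] [TotallyDisconnectedSpace A] (a : ℕ → A), Tendsto a cofinite (𝓝 1) →
      ∃! φ : G →ₜ* A, ∀ i, φ (x i) = a i

/-- The topological group `G` has closed normal subgroups `N 0, N 1, ...` which are free profinite
groups of countable rank, and `G = N j * N k` and `N j ∩ N k` is free profinite of countable rank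
for all `j ≠ k`. -/
def HasFreeSequence (G : Type) [Group G] [TopologicalSpace G] : Prop :=
  ∃ N : ℕ → Subgroup G,
    (∀ j, (N j).Normal ∧ IsClosed (N j : Set G) ∧ IsFreeProfinite (N j)) ∧
    ∀ j k, j ≠ k → (∀ g : G, ∃ x ∈ N j, ∃ y ∈ N k, g = x * y) ∧
      IsFreeProfinite (N j ⊓ N k : Subgroup G)

/-- The compositum of all extensions of `K` with a group `A_m ≀ A_n`, where `m, n ≥ 5` are in the
same set `X j`, `j ∈ J`. -/
noncomputable def wreathField (K : Type) [Field K] (X : ℕ → Set ℕ) (J : Set ℕ) :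
    IntermediateField K (SeparableClosure K) :=
  sSup {M | ∃ j ∈ J, ∃ m ∈ X j, ∃ n ∈ X j, 5 ≤ m ∧ 5 ≤ n ∧ IsWreathExt m n M}

section

variable {K : Type} [Field K]

/-- `F` is compatible with unions and intersections. -/
def IsLattice (F : Set ℕ → IntermediateField K (SeparableClosure K)) : Prop :=
  F ∅ = ⊥ ∧ (∀ J J', F (J ∪ J') = F J ⊔ F J') ∧ ∀ J J', F (J ∩ J') = F J ⊓ F J'

/-- The absolute Galois group of `F (J ∩ J')` is the product of the absolute Galois groups of `F J`
and `F J'` (which are normal in the absolute Galois group of `K` if `F J / K` and `F J' / K` are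
Galois). -/
def ProductsOfGroups (F : Set ℕ → IntermediateField K (SeparableClosure K)) : Prop :=
  ∀ J J', (F J).fixingSubgroup ⊔ (F J').fixingSubgroup = (F (J ∩ J')).fixingSubgroup

/-- The only finite Galois extension `E / K` with a solvable group which is contained in `F` is
`K`. -/
def NoSolvable (F : IntermediateField K (SeparableClosure K)) : Prop :=
  ∀ E : IntermediateField K (SeparableClosure K), E ≤ F → FiniteDimensional K E → IsGalois K E →
    Group.IsSolvable (E ≃ₐ[K] E) → E = ⊥

/-- Every finite group occurs over `F`, all finite embedding problems over `F` are properly solvable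
and the absolute Galois group of `F` is free profinite of countable rank if `K` is countable. -/
def FreeOver (F : IntermediateField K (SeparableClosure K)) : Prop :=
  (∀ (G : Type) [Group G] [Finite G], Occurs F G) ∧ SolvesAllEP F ∧
    (Countable K → IsFreeProfinite (SeparableClosure K ≃ₐ[F] SeparableClosure K))

end

/-- The theorem for the field `K` and the sets `X j`. -/
def TheoremFor (X : ℕ → Set ℕ) (K : Type) [Field K] : Prop :=
  (Countable K → HasFreeSequence (SeparableClosure K ≃ₐ[K] SeparableClosure K)) ∧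
  IsLattice (wreathField K X) ∧ ProductsOfGroups (wreathField K X) ∧
  (∀ J, IsGalois K (wreathField K X J) ∧ NoSolvable (wreathField K X J)) ∧
  ∀ J : Set ℕ, J.Nonempty → FreeOver (wreathField K X J)

theorem wrK_of {K : Type} [Field K] {X : Set ℕ} {m n : ℕ} (hm : m ∈ X) (hn : n ∈ X)
    (hm5 : 5 ≤ m) (hn5 : 5 ≤ n) {M : IntermediateField K (SeparableClosure K)}
    (h : IsWreathExt m n M) : Pool.Agent.H418.FQ.WrK (SeparableClosure K ≃ₐ[K] SeparableClosure K)
      X M.fixingSubgroup := by
  obtain ⟨hfd, hg, ⟨e⟩⟩ := h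
  have hk : (e.toMonoidHom.comp (AlgEquiv.restrictNormalHom M :
      (SeparableClosure K ≃ₐ[K] SeparableClosure K) →* (M ≃ₐ[K] M))).ker = M.fixingSubgroup := by
    rw [← IntermediateField.restrictNormalHom_ker]
    ext x
    rw [MonoidHom.mem_ker, MonoidHom.mem_ker]
    exact EmbeddingLike.map_eq_one_iff (f := e)
  refine ⟨m, n, hm, hn, hm5, hn5, e.toMonoidHom.comp (AlgEquiv.restrictNormalHom M),
    e.surjective.comp (AlgEquiv.restrictNormalHom_surjective (F := K) (K₁ := M)
      (SeparableClosure K)), ?_, hk⟩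
  rw [hk]
  exact IntermediateField.fixingSubgroup_isOpen M

theorem main {X : ℕ → Set ℕ} (hX : ∀ j k, j ≠ k → Disjoint (X j) (X k)) {K : Type} [Field K]
    (hX2 : ∀ j, (∀ a : ℕ, 0 < a → ∃ m ∈ X j, 0 < m ∧ a ∣ m) ∧ Pool.Agent.H418.FQ.PerfSolvE
      (SeparableClosure K ≃ₐ[K] SeparableClosure K) (X j)) : TheoremFor X K := by
  obtain ⟨F, hF⟩ : ∃ F, F = wreathField K X := ⟨_, rfl⟩
  have hF2 : ∀ J : Set ℕ, F J =
      sSup {M | ∃ j ∈ J, ∃ m ∈ X j, ∃ n ∈ X j, 5 ≤ m ∧ 5 ≤ n ∧ IsWreathExt m n M} := by
    intro J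
    rw [hF]
    rfl
  -- the groups
  have hN : ∀ J : Set ℕ, (F J).fixingSubgroup = sInf (IntermediateField.fixingSubgroup ''
      {M | ∃ j ∈ J, ∃ m ∈ X j, ∃ n ∈ X j, 5 ≤ m ∧ 5 ≤ n ∧ IsWreathExt m n M}) := by
    intro J
    rw [hF2, Pool.Agent.H418.FA.fixing_sSup]
  have hwr : ∀ J : Set ℕ, ∀ P ∈ IntermediateField.fixingSubgroup ''
      {M : IntermediateField K (SeparableClosure K) | ∃ j ∈ J, ∃ m ∈ X j, ∃ n ∈ X j,
        5 ≤ m ∧ 5 ≤ n ∧ IsWreathExt m n M},
      Pool.Agent.H418.FQ.WrK (SeparableClosure K ≃ₐ[K] SeparableClosure K) (⋃ j ∈ J, X j) P := by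
    rintro J _ ⟨M, ⟨j, hj, m, hm, n, hn, hm5, hn5, h⟩, rfl⟩
    exact wrK_of (Set.mem_biUnion hj hm) (Set.mem_biUnion hj hn) hm5 hn5 h
  have hle : ∀ J, Pool.Agent.H418.FP.TRes2 (SeparableClosure K ≃ₐ[K] SeparableClosure K) ≤
      (F J).fixingSubgroup := by
    intro J
    rw [hN]
    exact le_sInf fun P hP => (hwr J P hP).le
  have hnorm : ∀ J, (F J).fixingSubgroup.Normal := by
    intro J
    rw [hN]
    refine ⟨fun x hx g => ?_⟩
    rw [Subgroup.mem_sInf] at hx ⊢
    intro P hP
    have h1 := hx P hP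
    obtain ⟨m, n, -, -, -, -, f, -, -, rfl⟩ := hwr J P hP
    exact (inferInstance : f.ker.Normal).conj_mem x h1 g
  have hunion : ∀ J J', F (J ∪ J') = F J ⊔ F J' := by
    intro J J'
    rw [hF2, hF2, hF2, ← sSup_union]
    congr 1
    ext M
    constructor
    · rintro ⟨j, hj | hj, h⟩
      · exact Or.inl ⟨j, hj, h⟩
      · exact Or.inr ⟨j, hj, h⟩
    · rintro (⟨j, hj, h⟩ | ⟨j, hj, h⟩)
      · exact ⟨j, Or.inl hj, h⟩
      · exact ⟨j, Or.inr hj, h⟩
  have hmono : ∀ J J', J ⊆ J' → F J ≤ F J' := by
    intro J J' h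
    have h1 := hunion J J'
    rw [Set.union_eq_self_of_subset_left h] at h1
    rw [h1]
    exact le_sup_left
  have hdis : ∀ J J' : Set ℕ, Disjoint J J' →
      (F J).fixingSubgroup ⊔ (F J').fixingSubgroup = ⊤ := by
    intro J J' h
    rw [hN, hN]
    refine Pool.Agent.H418.FQ.sup_top ?_ _ _ (hwr J) (hwr J')
    rw [Set.disjoint_left]
    intro a ha ha'
    obtain ⟨j, hj, haj⟩ := Set.mem_iUnion₂.1 ha
    obtain ⟨k, hk, hak⟩ := Set.mem_iUnion₂.1 ha'
    have hjk : j ≠ k := by
      rintro rfl
      exact Set.disjoint_left.1 h hj hk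
    exact Set.disjoint_left.1 (hX j k hjk) haj hak
  have hsup : ∀ J J', (F J).fixingSubgroup ⊔ (F J').fixingSubgroup =
      (F (J ∩ J')).fixingSubgroup := by
    intro J J'
    refine le_antisymm (sup_le (IntermediateField.fixingSubgroup_le
      (hmono _ _ Set.inter_subset_left)) (IntermediateField.fixingSubgroup_le
      (hmono _ _ Set.inter_subset_right))) ?_
    intro g hg
    have h1 := hdis J (J' \ J) Set.disjoint_sdiff_right
    have h2 : g ∈ (F J).fixingSubgroup ⊔ (F (J' \ J)).fixingSubgroup := h1 ▸ Subgroup.mem_top g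
    have h3 := hnorm (J' \ J)
    obtain ⟨a, ha, b, hb, rfl⟩ := Subgroup.mem_sup_of_normal_right.1 h2
    refine Subgroup.mul_mem_sup ha ?_
    have h4 : b ∈ (F (J ∩ J')).fixingSubgroup := by
      have h5 := (F (J ∩ J')).fixingSubgroup.mul_mem ((F (J ∩ J')).fixingSubgroup.inv_mem
        (IntermediateField.fixingSubgroup_le (hmono _ _ Set.inter_subset_left) ha)) hg
      rwa [inv_mul_cancel_left] at h5
    have h6 : (J ∩ J') ∪ (J' \ J) = J' := by
      ext x
      constructor
      · rintro (⟨-, h⟩ | ⟨h, -⟩) <;> exact h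
      · intro h
        by_cases hx : x ∈ J
        · exact Or.inl ⟨hx, h⟩
        · exact Or.inr ⟨h, hx⟩
    rw [← h6, hunion, IntermediateField.fixingSubgroup_sup]
    exact ⟨h4, hb⟩
  have hsolve0 : ∀ J : Set ℕ, J.Nonempty → Pool.Agent.H418.FA.SolvesAll (F J).fixingSubgroup := by
    rintro J ⟨j, hj⟩
    rw [hN]
    refine Pool.Agent.H418.FQ.core3E (hX2 j).1 (hX2 j).2 _ ⟨fun P hP => (hwr J P hP).le, ?_⟩
    intro m n hm hm5 hn5 hn f hf hfo
    obtain ⟨M, hM, h3, h4, h5⟩ := Pool.Agent.H418.FP.exists_field_of_hom f hf hfo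
    exact ⟨M, ⟨j, hj, m, hm, n, hn, hm5, hn5, h3, h4, h5⟩, hM⟩
  have hcΩ : Countable K → Countable (SeparableClosure K) := by
    intro hc
    have h3 := Algebra.IsAlgebraic.cardinalMk_le_max K (SeparableClosure K)
    rw [← Cardinal.mk_le_aleph0_iff]
    exact h3.trans (max_le (Cardinal.mk_le_aleph0_iff.2 inferInstance) le_rfl)
  refine ⟨fun hc => ?_, ?_⟩
  · have hc' := hcΩ hc
    obtain ⟨U, hU, hU2⟩ := Pool.Agent.H418.FA.exists_countable_basis (K := K)
      (Ω := SeparableClosure K)
    have hfree : ∀ J : Set ℕ, J.Nonempty → IsFreeProfinite (F J).fixingSubgroup := by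
      intro J hJ
      have hcl := InfiniteGalois.fixingSubgroup_isClosed (F J)
      have hcomp : CompactSpace (F J).fixingSubgroup := isCompact_iff_compactSpace.1 hcl.isCompact
      obtain ⟨x, hx1, hx2⟩ := Pool.Agent.H418.FA.free_subgroup U hU hU2
        Pool.Agent.H418.FA.exists_open (F J).fixingSubgroup hcl (hsolve0 J hJ)
      exact ⟨⟨inferInstance, hcomp, inferInstance, inferInstance⟩, x, hx1, hx2⟩
    refine ⟨fun j => (F {j}).fixingSubgroup, fun j => ⟨hnorm _,
      InfiniteGalois.fixingSubgroup_isClosed _, hfree _ ⟨j, rfl⟩⟩, fun j k hjk => ⟨fun g => ?_, ?_⟩⟩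
    · have h1 := hdis {j} {k} (Set.disjoint_singleton.2 hjk)
      have h2 : g ∈ (F {j}).fixingSubgroup ⊔ (F {k}).fixingSubgroup := h1 ▸ Subgroup.mem_top g
      have h3 := hnorm {k}
      obtain ⟨a, ha, b, hb, rfl⟩ := Subgroup.mem_sup_of_normal_right.1 h2
      exact ⟨a, ha, b, hb, rfl⟩
    · have h1 := hfree ({j} ∪ {k}) ⟨j, Or.inl rfl⟩
      rw [hunion, IntermediateField.fixingSubgroup_sup] at h1
      exact h1
  rw [← hF]
  refine ⟨⟨?_, hunion, ?_⟩, hsup, fun J => ⟨?_, ?_⟩, fun J hJ => ?_⟩
  · rw [hF2]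
    have h1 : {M : IntermediateField K (SeparableClosure K) | ∃ j ∈ (∅ : Set ℕ), ∃ m ∈ X j,
        ∃ n ∈ X j, 5 ≤ m ∧ 5 ≤ n ∧ IsWreathExt m n M} = ∅ := by
      rw [Set.eq_empty_iff_forall_notMem]
      rintro M ⟨j, hj, -⟩
      exact hj
    rw [h1, sSup_empty]
  · intro J J'
    refine le_antisymm (le_inf (hmono _ _ Set.inter_subset_left)
      (hmono _ _ Set.inter_subset_right)) ?_
    rintro x ⟨hx, hx'⟩
    rw [← InfiniteGalois.fixedField_fixingSubgroup (F (J ∩ J')), ← hsup,
      IntermediateField.mem_fixedField_iff]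
    intro g hg
    have h3 := hnorm J'
    obtain ⟨a, ha, b, hb, rfl⟩ := Subgroup.mem_sup_of_normal_right.1 hg
    have h4 := (IntermediateField.mem_fixingSubgroup_iff _ a).1 ha x hx
    have h5 := (IntermediateField.mem_fixingSubgroup_iff _ b).1 hb x hx'
    rw [AlgEquiv.mul_apply, h5, h4]
  · rw [← InfiniteGalois.normal_iff_isGalois]
    exact hnorm J
  · intro E hE hfd hg hs
    exact Pool.Agent.H418.FP.eq_bot_of_solvable _ E (hle J) hE hfd hg hs
  · have hsolve : Pool.Agent.H418.FA.SolvesAll
        (SeparableClosure K ≃ₐ[F J] SeparableClosure K) := by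
      obtain ⟨e, he, he'⟩ := Pool.Agent.H418.FA.exists_equiv (F J)
      exact Pool.Agent.H418.FA.SolvesAll.of_equiv e he he' (hsolve0 J hJ)
    have hEP : SolvesAllEP (F J) := Pool.Agent.H418.FP.solvesAllEP_sep hsolve
    refine ⟨?_, hEP, ?_⟩
    · intro G _ _
      have h0 : ∀ a : (F J) ≃ₐ[F J] (F J), a = 1 :=
        fun a => AlgEquiv.ext fun x => a.commutes x
      obtain ⟨M, i1, i2, i3, i4, i5, i6, γ, -⟩ := hEP (F J) G 1 (fun a => ⟨1, by
        rw [h0 a, map_one]⟩)
      exact ⟨M, i1, i2, i5, i6, ⟨γ⟩⟩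
    · intro hc
      have hc' := hcΩ hc
      obtain ⟨x, hx1, hx2⟩ := Pool.Agent.H418.FA.free_of_solvesAll _ hsolve
      exact ⟨⟨inferInstance, inferInstance, inferInstance, inferInstance⟩, x, hx1, hx2⟩

/-- Let `p` be an odd prime. There are pairwise disjoint sets `X j` such that the theorem holds for
the rational function fields `K(X)` of all fields `K` of characteristic `p`, for example for
`F_p(X)`, and for all Hilbertian fields `K` of characteristic `p`. -/
theorem result (p : ℕ) [Fact p.Prime] (hp : p ≠ 2) :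
    ∃ X : ℕ → Set ℕ, (∀ j k, j ≠ k → Disjoint (X j) (X k)) ∧
      ∀ (K : Type) [Field K] [CharP K p],
        TheoremFor X (RatFunc K) ∧ (IsHilbertian K → TheoremFor X K) := by
  obtain ⟨X, hX, hX2⟩ := Pool.Agent.H418.FQ.exists_sets p hp
  refine ⟨X, hX, fun K _ _ => ⟨?_, fun hK => ?_⟩⟩
  · have : CharP (RatFunc K) p := Pool.Agent.Y60.DC.charP_ratFunc K p
    exact main hX fun j => ⟨(hX2 j).1, (hX2 j).2 _ _ (Pool.Agent.Y140.HD.hilb_ratFunc K)⟩
  · exact main hX fun j => ⟨(hX2 j).1, (hX2 j).2 _ _ hK⟩

end Pool.Agent.Results.MP_7f581e_nt.ProductOfTwoFree
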